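import Pool.Agent.U47.VD.Gap

set_option autoImplicit false

/-!
# min-Cost-VERTEX-DEL has no constant-factor approximation unless `P = NP`

The two starting results for this problem are a reduction from Set Cover (`NoConstantFactor`) and the
impossibility under the Unique Games Conjecture (`NoConstApprox`). Here nothing but `P ≠ NP` is
assumed.

Definitions: `Pool/Agent/H569R2/VDel/Defs.lean` (`Inst`, `graph`, `Stable`, `Feasible`, `cost`,
`TwoCosts`, `VDApprox`), `Pool/Agent/NPC/Defs.lean` (`PolyTime`, `InNP`, `bits`) and
`Pool/Agent/NPC/Classes.lean` (`InP`).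

Proof. The PCP theorem gives a gap for vertex cover, and iterated composition of hypergraphs an
arbitrarily large constant gap for Hitting Set with hyperedges of constant size (library). The dual
hypergraph is an instance of Set Cover with the same gap, and the reduction of the starting file from
Set Cover to min-Cost-VERTEX-DEL with two costs loses a factor of at most two.
-/

namespace Pool.Agent.Results.MP_f82fc2_lc.UnlessPEqualsNP

open Pool.Agent.H569R2.VDel Pool.Agent.NPC

/-- Let `α` be a real number. (1) For every language `L` in `NP` there are functions `f`, `k`,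
computable in polynomial time, which map every word `x` to an instance `f x` of min-Cost-VERTEX-DEL
in which every vertex has one of two costs, and a number `k x`, such that some feasible solution
costs at most `k x` if `x` is in `L`, and every feasible solution costs more than `α * k x` if `x` is
not in `L`. (2) If there is a polynomial-time `α`-approximation algorithm for min-Cost-VERTEX-DEL,
even only for the instances with two costs, then `P = NP`. -/
theorem result (α : ℝ) :
    (∀ L : Set (List Bool), InNP L → ∃ (f : List Bool → Inst) (k : List Bool → ℕ),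
      PolyTime (fun x => bits (f x, k x)) ∧ ∀ x, TwoCosts (f x) ∧
        (x ∈ L → ∃ S : List ℕ, Feasible (f x) S ∧ cost (f x) S ≤ k x) ∧
        (x ∉ L → ∀ S : List ℕ, Feasible (f x) S → α * (k x : ℝ) < (cost (f x) S : ℝ))) ∧
    (VDApprox TwoCosts α → ∀ L : Set (List Bool), InNP L → InP L) ∧
    (VDApprox (fun _ => True) α → ∀ L : Set (List Bool), InNP L → InP L) := by
  have h2 : VDApprox TwoCosts α → ∀ L : Set (List Bool), InNP L → InP L :=
    fun h L hL => Pool.Agent.U47.VD.collapse_of_vdApprox h hL
  refine ⟨fun L hL => ?_, h2, fun h => h2 ?_⟩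
  · obtain ⟨f, k, hfk, hx⟩ := Pool.Agent.U47.VD.gapVD ⌈α⌉₊ hL
    refine ⟨f, k, polyTime_bits hfk, fun x => ?_⟩
    obtain ⟨h1, h3, h4⟩ := hx x
    refine ⟨h1, h3, fun hxL S hS => ?_⟩
    have h5 : ((⌈α⌉₊ * k x : ℕ) : ℝ) < cost (f x) S := by exact_mod_cast h4 hxL S hS
    refine lt_of_le_of_lt ?_ h5
    push_cast
    exact mul_le_mul_of_nonneg_right (Nat.le_ceil α) (by positivity)
  · obtain ⟨F, hF, hs⟩ := h
    exact ⟨F, hF, fun I _ => hs I trivial⟩

end Pool.Agent.Results.MP_f82fc2_lc.UnlessPEqualsNP
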